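import Pool.Agent.W788.BK.Lat

/-! Locality of the local smoothing estimate `SM1`. -/

set_option autoImplicit false

open scoped BigOperators
open MeasureTheory

namespace Pool.Agent.L5helper95.GF

open Pool.Agent.W788.MFP.Cut (φ φ_nonneg φ_le_one φ_one φ_zero φ_lip norm_single)
open Pool.Agent.H4R2.LO (Zd)
open Pool.Agent.W788.BK (SM1)

variable {d : ℕ}

theorem summ_add (u : Zd d → ℝ) (e : Zd d) (hu : Summable fun x => u x ^ 2) :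
    Summable fun x => u (x + e) ^ 2 := by
  have h := (Equiv.addRight e).summable_iff (f := fun x => u x ^ 2)
  exact h.2 hu

theorem tsum_add (u : Zd d → ℝ) (e : Zd d) : ∑' x, u (x + e) ^ 2 = ∑' x, u x ^ 2 := by
  have h := (Equiv.addRight e).tsum_eq (f := fun x => u x ^ 2)
  exact h

theorem sq_le_one_mul (p y : ℝ) (h0 : 0 ≤ p) (h1 : p ≤ 1) : (p * y) ^ 2 ≤ y ^ 2 := by
  rw [mul_pow]
  apply mul_le_of_le_one_left (sq_nonneg _)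
  exact pow_le_one₀ h0 h1

theorem sq_abs_mul (p q y : ℝ) (h : |p| ≤ q) : (p * y) ^ 2 ≤ q ^ 2 * y ^ 2 := by
  rw [mul_pow]
  apply mul_le_mul_of_nonneg_right _ (sq_nonneg _)
  rw [← sq_abs]
  exact pow_le_pow_left₀ (abs_nonneg _) h 2

/-- the commutator term -/
noncomputable def rr (ℓ : ℝ) (a : Zd d) (u : Zd d → ℝ) (x : Zd d) : ℝ := ∑ i : Fin d,
    ((φ ℓ (x + Pi.single i 1 - a) - φ ℓ (x - a)) * u (x + Pi.single i 1) +
     (φ ℓ (x - Pi.single i 1 - a) - φ ℓ (x - a)) * u (x - Pi.single i 1))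

theorem step1 (ℓ : ℝ) (hℓ0 : 0 < ℓ) (a x : Zd d) (i : Fin d) :
    |φ ℓ (x + Pi.single i 1 - a) - φ ℓ (x - a)| ≤ 1 / ℓ := by
  apply φ_lip ℓ hℓ0
  have : x + Pi.single i 1 - a - (x - a) = (Pi.single i 1 : Zd d) := by abel
  rw [this]
  exact norm_single i

theorem step2 (ℓ : ℝ) (hℓ0 : 0 < ℓ) (a x : Zd d) (i : Fin d) :
    |φ ℓ (x - Pi.single i 1 - a) - φ ℓ (x - a)| ≤ 1 / ℓ := by
  apply φ_lip ℓ hℓ0
  have : x - Pi.single i 1 - a - (x - a) = -(Pi.single i 1 : Zd d) := by abel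
  rw [this, norm_neg]
  exact norm_single i

theorem rr_sq (ℓ : ℝ) (hℓ0 : 0 < ℓ) (a : Zd d) (u : Zd d → ℝ) (x : Zd d) :
    rr ℓ a u x ^ 2 ≤ ∑ i : Fin d, (d * (2 * (1 / ℓ) ^ 2)) * (u (x + Pi.single i 1) ^ 2 +
      u (x + -Pi.single i 1) ^ 2) := by
  unfold rr
  refine sq_sum_le_card_mul_sum_sq.trans ?_
  rw [Finset.card_univ, Fintype.card_fin, ← Finset.mul_sum, mul_assoc]
  apply mul_le_mul_of_nonneg_left _ (by positivity)
  rw [Finset.mul_sum]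
  refine Finset.sum_le_sum fun i _ => ?_
  have e1 := sq_abs_mul _ _ (u (x + Pi.single i 1)) (step1 ℓ hℓ0 a x i)
  have e2 := sq_abs_mul _ _ (u (x - Pi.single i 1)) (step2 ℓ hℓ0 a x i)
  rw [← sub_eq_add_neg]
  have e3 := add_sq_le (a := (φ ℓ (x + Pi.single i 1 - a) - φ ℓ (x - a)) * u (x + Pi.single i 1))
    (b := (φ ℓ (x - Pi.single i 1 - a) - φ ℓ (x - a)) * u (x - Pi.single i 1))
  linarith

theorem rr_summ' (c : ℝ) (u : Zd d → ℝ) (hu : Summable fun x => u x ^ 2) (i : Fin d) :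
    Summable fun x : Zd d => c * (u (x + Pi.single i 1) ^ 2 + u (x + -Pi.single i 1) ^ 2) :=
  ((summ_add u (Pi.single i 1) hu).add (summ_add u (-Pi.single i 1) hu)).mul_left c

theorem rr_summ (ℓ : ℝ) (hℓ0 : 0 < ℓ) (a : Zd d) (u : Zd d → ℝ) (hu : Summable fun x => u x ^ 2) :
    Summable fun x => rr ℓ a u x ^ 2 :=
  Summable.of_nonneg_of_le (fun _ => sq_nonneg _) (rr_sq ℓ hℓ0 a u)
    (summable_sum fun i _ => rr_summ' _ u hu i)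

theorem rr_tsum' (c : ℝ) (u : Zd d → ℝ) (hu : Summable fun x => u x ^ 2) (i : Fin d) :
    ∑' x : Zd d, c * (u (x + Pi.single i 1) ^ 2 + u (x + -Pi.single i 1) ^ 2) =
      c * (2 * ∑' x, u x ^ 2) := by
  rw [tsum_mul_left, (summ_add u (Pi.single i 1) hu).tsum_add (summ_add u (-Pi.single i 1) hu),
    tsum_add, tsum_add]
  ring

theorem rr_tsum (ℓ t : ℝ) (hℓ0 : 0 < ℓ) (hℓ : 2 * d ≤ t * ℓ) (a : Zd d) (u : Zd d → ℝ)
    (hu : Summable fun x => u x ^ 2) :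
    ∑' x, rr ℓ a u x ^ 2 ≤ t ^ 2 * ∑' x, u x ^ 2 := by
  have hSu : 0 ≤ ∑' x, u x ^ 2 := tsum_nonneg fun x => sq_nonneg _
  refine ((rr_summ ℓ hℓ0 a u hu).tsum_le_tsum (rr_sq ℓ hℓ0 a u)
    (summable_sum fun i _ => rr_summ' _ u hu i)).trans ?_
  rw [Summable.tsum_finsetSum fun i _ => rr_summ' _ u hu i]
  rw [Finset.sum_congr rfl fun i _ => rr_tsum' _ u hu i, Finset.sum_const, Finset.card_univ,
    Fintype.card_fin, nsmul_eq_mul]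
  have e2 : (d : ℝ) * ((d * (2 * (1 / ℓ) ^ 2)) * (2 * ∑' x, u x ^ 2)) =
      (2 * d / ℓ) ^ 2 * ∑' x, u x ^ 2 := by ring
  rw [e2]
  apply mul_le_mul_of_nonneg_right _ hSu
  apply pow_le_pow_left₀ (by positivity)
  rw [div_le_iff₀ hℓ0]
  exact hℓ

theorem rr_eq (ℓ : ℝ) (a : Zd d) (u : Zd d → ℝ) (x : Zd d) :
    ∑ i : Fin d, (φ ℓ (x + Pi.single i 1 - a) * u (x + Pi.single i 1) +
      φ ℓ (x - Pi.single i 1 - a) * u (x - Pi.single i 1)) =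
    rr ℓ a u x + φ ℓ (x - a) * ∑ i : Fin d, (u (x + Pi.single i 1) + u (x - Pi.single i 1)) := by
  unfold rr
  rw [Finset.mul_sum, ← Finset.sum_add_distrib]
  exact Finset.sum_congr rfl fun i _ => by ring

/-- the truncated function solves an equation with an additional error term -/
theorem cut_eq (ℓ ρ σ E : ℝ) (hℓ0 : 0 < ℓ) (ξ ξ' : Zd d → ℝ)
    (hξ : ∀ x, ‖x‖ ≤ ρ + 2 * ℓ → ξ' x = ξ x) (u f : Zd d → ℝ)
    (heq : ∀ x, ∑ i, (u (x + Pi.single i 1) + u (x - Pi.single i 1)) + σ * ξ' x * u x =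
      E * u x + f x) (a : Zd d) (ha : ‖a‖ ≤ ρ) (x : Zd d) :
    ∑ i : Fin d, (φ ℓ (x + Pi.single i 1 - a) * u (x + Pi.single i 1) +
      φ ℓ (x - Pi.single i 1 - a) * u (x - Pi.single i 1)) + σ * ξ x * (φ ℓ (x - a) * u x) =
      E * (φ ℓ (x - a) * u x) + (rr ℓ a u x + φ ℓ (x - a) * f x) := by
  have h1 := heq x
  have h3 : ξ x * (φ ℓ (x - a) * u x) = ξ' x * (φ ℓ (x - a) * u x) := by
    by_cases hx : 2 * ℓ ≤ ‖x - a‖
    · rw [φ_zero ℓ hℓ0 _ hx, zero_mul, mul_zero, mul_zero]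
    · push Not at hx
      rw [hξ x]
      have e1 : ‖x‖ ≤ ‖x - a‖ + ‖a‖ := by
        have := norm_add_le (x - a) a
        rwa [sub_add_cancel] at this
      linarith
  have h4 : φ ℓ (x - a) * ∑ i, (u (x + Pi.single i 1) + u (x - Pi.single i 1)) =
      φ ℓ (x - a) * (E * u x + f x - σ * ξ' x * u x) := by
    rw [← h1]
    ring
  have h5 : σ * ξ x * (φ ℓ (x - a) * u x) = σ * ξ' x * (φ ℓ (x - a) * u x) := by
    rw [mul_assoc, h3, mul_assoc]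
  rw [rr_eq, h4, h5]
  ring

theorem fin_calc (g t Sv Su Sr Sf : ℝ) (hg : 0 ≤ g) (ht : 0 < t) (h1 : Sv ≤ Su)
    (h2 : Sr ≤ 2 * (t ^ 2 * Su) + 2 * Sf) (hSu : 0 ≤ Su) :
    g * (5 * t * Sv + 2 * t⁻¹ * Sr) ≤ 2 * g * (5 * t * Su + 2 * t⁻¹ * Sf) := by
  have e5 : t⁻¹ * t ^ 2 = t := by field_simp
  have e6 : 5 * t * Sv + 2 * t⁻¹ * Sr ≤ 5 * t * Su + 2 * t⁻¹ * (2 * (t ^ 2 * Su) + 2 * Sf) := by
    gcongr
  have e7 : 5 * t * Su + 2 * t⁻¹ * (2 * (t ^ 2 * Su) + 2 * Sf) =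
      9 * t * Su + 4 * t⁻¹ * Sf := by
    have : 2 * t⁻¹ * (2 * (t ^ 2 * Su) + 2 * Sf) = 4 * (t⁻¹ * t ^ 2) * Su + 4 * t⁻¹ * Sf := by ring
    rw [this, e5]
    ring
  have e8 : 9 * t * Su ≤ 10 * t * Su := by
    apply mul_le_mul_of_nonneg_right _ hSu
    linarith
  calc g * (5 * t * Sv + 2 * t⁻¹ * Sr) ≤ g * (10 * t * Su + 4 * t⁻¹ * Sf) := by
        apply mul_le_mul_of_nonneg_left _ hg
        linarith
    _ = _ := by ring

theorem rhs_sum (ℓ t : ℝ) (hℓ0 : 0 < ℓ) (hℓ : 2 * d ≤ t * ℓ) (a : Zd d) (u f : Zd d → ℝ)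
    (hu : Summable fun x => u x ^ 2) (hf : Summable fun x => f x ^ 2) :
    (Summable fun x => (rr ℓ a u x + φ ℓ (x - a) * f x) ^ 2) ∧
    ∑' x, (rr ℓ a u x + φ ℓ (x - a) * f x) ^ 2 ≤
      2 * (t ^ 2 * ∑' x, u x ^ 2) + 2 * ∑' x, f x ^ 2 := by
  have hrs := rr_summ ℓ hℓ0 a u hu
  have hr2 := rr_tsum ℓ t hℓ0 hℓ a u hu
  have hf1 : ∀ x, (rr ℓ a u x + φ ℓ (x - a) * f x) ^ 2 ≤ 2 * rr ℓ a u x ^ 2 + 2 * f x ^ 2 := by
    intro x
    have e1 := sq_le_one_mul (φ ℓ (x - a)) (f x) (φ_nonneg _ _) (φ_le_one _ _)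
    have e3 := add_sq_le (a := rr ℓ a u x) (b := φ ℓ (x - a) * f x)
    linarith
  have hfs' : Summable fun x => 2 * rr ℓ a u x ^ 2 + 2 * f x ^ 2 :=
    (hrs.mul_left 2).add (hf.mul_left 2)
  have hfs : Summable fun x => (rr ℓ a u x + φ ℓ (x - a) * f x) ^ 2 :=
    Summable.of_nonneg_of_le (fun x => sq_nonneg _) hf1 hfs'
  refine ⟨hfs, (hfs.tsum_le_tsum hf1 hfs').trans ?_⟩
  rw [(hrs.mul_left 2).tsum_add (hf.mul_left 2), tsum_mul_left, tsum_mul_left]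
  linarith

/-- The estimate `SM1` depends only on the potential near the box. -/
theorem SM1_loc (hd : 1 ≤ d) (σ ρ t g ℓ : ℝ) (ht : 0 < t) (hℓ : 2 * d ≤ t * ℓ) (hg : 0 ≤ g)
    (ξ ξ' : Zd d → ℝ) (h : SM1 d σ ρ t g ξ) (hξ : ∀ x, ‖x‖ ≤ ρ + 2 * ℓ → ξ' x = ξ x) :
    SM1 d σ ρ t (2 * g) ξ' := by
  intro E u f hu hf heq a ha
  have hd0 : (1 : ℝ) ≤ d := by exact_mod_cast hd
  have hℓ0 : 0 < ℓ := by
    by_contra hcon
    push Not at hcon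
    have := mul_nonpos_of_nonneg_of_nonpos ht.le hcon
    linarith
  have hSu : 0 ≤ ∑' x, u x ^ 2 := tsum_nonneg fun x => sq_nonneg _
  have hv1 : ∀ x, (φ ℓ (x - a) * u x) ^ 2 ≤ u x ^ 2 := fun x =>
    sq_le_one_mul _ _ (φ_nonneg _ _) (φ_le_one _ _)
  have hvs : Summable fun x => (φ ℓ (x - a) * u x) ^ 2 :=
    Summable.of_nonneg_of_le (fun x => sq_nonneg _) hv1 hu
  have hv2 : ∑' x, (φ ℓ (x - a) * u x) ^ 2 ≤ ∑' x, u x ^ 2 := hvs.tsum_le_tsum hv1 hu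
  obtain ⟨hfs, hf2⟩ := rhs_sum ℓ t hℓ0 hℓ a u f hu hf
  have key := h E (fun x => φ ℓ (x - a) * u x) (fun x => rr ℓ a u x + φ ℓ (x - a) * f x) hvs hfs
    (cut_eq ℓ ρ σ E hℓ0 ξ ξ' hξ u f heq a ha) a ha
  have hva : φ ℓ (a - a) * u a = u a := by
    rw [φ_one ℓ hℓ0 _ (by rw [sub_self, norm_zero]; exact hℓ0.le), one_mul]
  simp only [hva] at key
  exact key.trans (fin_calc g t _ _ _ _ hg ht hv2 hf2 hSu)

end Pool.Agent.L5helper95.GF
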