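import Pool.Agent.L5helper95.GF.Gau
import Pool.Agent.W193.BK.ES
import Pool.Agent.W240.BK.Var
import Pool.Agent.W540.BK.Fac
import Pool.Agent.W240.BK.Fluct
import Pool.Agent.W340.BK.Conc
import Pool.Agent.W918.BK.Osc
import Pool.Agent.W240.BK.Two
import Pool.Agent.W465.BK.QB
import Pool.Agent.W475.BK.Low
import Pool.Agent.W975.BK.Sup
import Pool.Agent.W790.BK.ADM
import Pool.Agent.W475.BK.Inv
import Pool.Agent.W351.BK.Mb
import Pool.Agent.W363.BK.Site
import Pool.Agent.W261.BK.Third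

/-! The local smoothing estimate for Gaussian disorder. -/

set_option autoImplicit false

open scoped BigOperators
open MeasureTheory ProbabilityTheory Filter

namespace Pool.Agent.L5helper95.GF

open Pool.Agent.H4R2.LO (Zd)
open Pool.Agent.W788.BK
open Pool.Agent.W788.BK.Num

variable {d : ℕ}

/-- the engine for bounded laws -/
theorem eng0 (d : ℕ) (hd : 3 ≤ d) (b : ℝ) (hb : 0 < b) : ∃ y0 : ℝ, ∀ y : ℝ, y0 ≤ y →
    ∀ (ν : Measure ℝ), IsProbabilityMeasure ν → (∀ᵐ s ∂ν, |s| ≤ b) → ∫ s, s ∂ν = 0 →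
    ∃ G : Set (Zd d → ℝ), MeasurableSet G ∧
      1 - Real.exp (-Real.exp (y / 100)) ≤ (Measure.infinitePi fun _ : Zd d => ν).real G ∧
      ∀ ξ ∈ G, SM1 d (Real.exp (-1 * y)) (Real.exp (Real.exp (y / 100)))
        (Real.exp (-(17 / 8) * y)) (192 * (C1 * (17 / 8 * y))) ξ :=
  engine (Pool.Agent.W261.BK.third Pool.Agent.W540.BK.fac)
    (Pool.Agent.W240.BK.fluct (Pool.Agent.W240.BK.var Pool.Agent.W193.BK.ES.es))
    Pool.Agent.W475.BK.inv Pool.Agent.W351.BK.mb
    (Pool.Agent.W340.BK.Conc.conc Pool.Agent.W193.BK.ES.es)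
    Pool.Agent.W975.BK.sup Pool.Agent.W363.BK.site
    (Pool.Agent.W465.BK.qb (Pool.Agent.W240.BK.two Pool.Agent.W918.BK.Osc.osc))
    Pool.Agent.W475.BK.low Pool.Agent.W790.BK.ADM.adm d hd b hb

/-- **the engine for Gaussian disorder** -/
theorem engG (d : ℕ) (hd : 3 ≤ d) : ∃ z0 : ℝ, 1 ≤ z0 ∧ ∀ z : ℝ, z0 ≤ z →
    ∃ G : Set (Zd d → ℝ), MeasurableSet G ∧
      1 - Real.exp (-Real.exp (z / 110)) ≤
        (Measure.infinitePi fun _ : Zd d => gaussianReal 0 1).real G ∧
      ∀ ξ ∈ G, SM1 d (Real.exp (-z)) (Real.exp (Real.exp (z / 110)))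
        (Real.exp (-(21 / 10) * z)) (2 * (192 * (C1 * (17 / 8 * (84 / 85 * z))))) ξ := by
  obtain ⟨y0, h0⟩ := eng0 d hd 1 one_pos
  obtain ⟨z1, hz1⟩ := eventually_atTop.1 (nok d)
  have hC1 := C1_ge
  refine ⟨max 1 (max z1 (85 / 84 * y0)), le_max_left _ _, fun z hz => ?_⟩
  have hN := hz1 z (le_trans (le_trans (le_max_left _ _) (le_max_right _ _)) hz)
  have hz0 : 85 / 84 * y0 ≤ z := le_trans (le_trans (le_max_right _ _) (le_max_right _ _)) hz
  have hz1' := hN.n0
  obtain ⟨y, hy⟩ : ∃ y, y = 84 / 85 * z := ⟨_, rfl⟩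
  have hyy : y0 ≤ y := by
    rw [hy]
    linarith
  obtain ⟨b, hb⟩ : ∃ b, b = Real.exp (1 / 85 * z) := ⟨_, rfl⟩
  have hb0 : 0 < b := by rw [hb]; positivity
  obtain ⟨G, hG, hP, hSM⟩ := h0 y hyy (nu b) inferInstance (nu_bdd b hb0) (nu_mean b)
  obtain ⟨t, ht⟩ : ∃ t, t = Real.exp (-(21 / 10) * z) := ⟨_, rfl⟩
  have htt : Real.exp (-(17 / 8) * y) = t := by
    rw [ht, hy]
    congr 1
    ring
  have ht0 : 0 < t := by rw [ht]; positivity
  obtain ⟨ℓ, hℓ⟩ : ∃ ℓ, ℓ = 2 * d * Real.exp (21 / 10 * z) := ⟨_, rfl⟩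
  have hℓ0 : 0 ≤ ℓ := by rw [hℓ]; positivity
  have htl : 2 * (d : ℝ) ≤ t * ℓ := by
    have : t * Real.exp (21 / 10 * z) = 1 := by
      rw [ht, ← Real.exp_add, neg_mul, neg_add_cancel, Real.exp_zero]
    rw [hℓ]
    have e : t * (2 * d * Real.exp (21 / 10 * z)) = 2 * d * (t * Real.exp (21 / 10 * z)) := by ring
    rw [e, this, mul_one]
  obtain ⟨ρ, hρ⟩ : ∃ ρ, ρ = Real.exp (Real.exp (z / 110)) := ⟨_, rfl⟩
  have hρ0 : 0 < ρ := by rw [hρ]; positivity
  have hρρ : ρ ≤ Real.exp (Real.exp (y / 100)) := by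
    rw [hρ]
    apply Real.exp_le_exp.2
    have h1 := hN.n1
    have e1 : 84 / 8500 * z = y / 100 := by rw [hy]; ring
    rw [e1] at h1
    linarith
  obtain ⟨R, hR⟩ : ∃ R : ℕ, R = ⌊ρ + 2 * ℓ⌋₊ := ⟨_, rfl⟩
  obtain ⟨T, hT⟩ : ∃ T : (Zd d → ℝ) → (Zd d → ℝ), T = fun ξ x => tr b (ξ x) := ⟨_, rfl⟩
  have hTm : Measurable T := by
    rw [hT]
    exact measurable_pi_iff.2 fun x => (tr_meas b).comp (measurable_pi_apply x)
  obtain ⟨P, hPd⟩ : ∃ P : Measure (Zd d → ℝ), P =
    Measure.infinitePi fun _ : Zd d => gaussianReal 0 1 := ⟨_, rfl⟩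
  have hPp : IsProbabilityMeasure P := by rw [hPd]; infer_instance
  have hlaw : P.map T = Measure.infinitePi fun _ : Zd d => nu b := by
    rw [hT, hPd]
    exact Measure.infinitePi_map_pi (μ := fun _ : Zd d => gaussianReal 0 1)
      (f := fun _ (s : ℝ) => tr b s) (fun _ => tr_meas b)
  have hS : ∀ x : Zd d, MeasurableSet {ξ : Zd d → ℝ | |ξ x| ≤ b} := fun x =>
    measurableSet_le (measurable_pi_apply x).abs measurable_const
  obtain ⟨G2, hG2⟩ : ∃ G2 : Set (Zd d → ℝ), G2 = ⋂ x ∈ Pool.Agent.H4R2.LO.bx (0 : Zd d) R,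
    {ξ : Zd d → ℝ | |ξ x| ≤ b} := ⟨_, rfl⟩
  have hG2m : MeasurableSet G2 := by
    rw [hG2]
    exact Finset.measurableSet_biInter _ fun x _ => hS x
  have hG1m : MeasurableSet (T ⁻¹' G) := hTm hG
  have hP1 : 1 - Real.exp (-Real.exp (y / 100)) ≤ P.real (T ⁻¹' G) := by
    rw [← hlaw, map_measureReal_apply hTm hG] at hP
    exact hP
  have hP2 : P.real G2ᶜ ≤ (2 * R + 1) ^ d * (2 * Real.exp (-(b ^ 2 / 2))) := by
    have e1 : G2ᶜ = ⋃ x ∈ Pool.Agent.H4R2.LO.bx (0 : Zd d) R, {ξ : Zd d → ℝ | |ξ x| ≤ b}ᶜ := by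
      rw [hG2]
      simp only [Set.compl_iInter]
    rw [e1]
    refine (measureReal_biUnion_finset_le _ _).trans ?_
    have e2 : ∀ x : Zd d, P.real {ξ : Zd d → ℝ | |ξ x| ≤ b}ᶜ ≤ 2 * Real.exp (-(b ^ 2 / 2)) := by
      intro x
      have hmp := measurePreserving_eval_infinitePi (fun _ : Zd d => gaussianReal 0 1) x
      have hms : MeasurableSet {s : ℝ | b < |s|} :=
        measurableSet_lt measurable_const measurable_id.abs
      have e3 : {ξ : Zd d → ℝ | |ξ x| ≤ b}ᶜ = (Function.eval x) ⁻¹' {s : ℝ | b < |s|} := by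
        ext ξ
        simp
      rw [e3, hPd]
      have e4 : (Measure.infinitePi fun _ : Zd d => gaussianReal 0 1).real
          ((Function.eval x) ⁻¹' {s : ℝ | b < |s|}) = (gaussianReal 0 1).real {s : ℝ | b < |s|} := by
        rw [measureReal_def, measureReal_def, hmp.measure_preimage hms.nullMeasurableSet]
      rw [e4]
      exact tail2 b hb0.le
    refine (Finset.sum_le_sum fun x _ => e2 x).trans ?_
    rw [Finset.sum_const, nsmul_eq_mul, Pool.Agent.H4R2.LO.Em.card_bx]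
    push_cast
    exact le_rfl
  refine ⟨T ⁻¹' G ∩ G2, hG1m.inter hG2m, ?_, ?_⟩
  · -- the probability
    rw [← hPd]
    have h1 : P.real (T ⁻¹' G ∩ G2)ᶜ ≤ Real.exp (-Real.exp (y / 100)) +
        (2 * R + 1) ^ d * (2 * Real.exp (-(b ^ 2 / 2))) := by
      rw [Set.compl_inter]
      refine (measureReal_union_le _ _).trans (add_le_add ?_ hP2)
      have := probReal_add_probReal_compl (μ := P) hG1m
      linarith
    have h2 := probReal_add_probReal_compl (μ := P) (hG1m.inter hG2m)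
    obtain ⟨e, he⟩ : ∃ e, e = Real.exp (z / 110) := ⟨_, rfl⟩
    have h3 : Real.exp (-Real.exp (y / 100)) ≤ Real.exp (-1) * Real.exp (-e) := by
      rw [← Real.exp_add]
      apply Real.exp_le_exp.2
      have h1 := hN.n1
      have e1 : 84 / 8500 * z = y / 100 := by rw [hy]; ring
      rw [e1] at h1
      rw [he]
      linarith
    have h4 : (2 * (R : ℝ) + 1) ^ d * (2 * Real.exp (-(b ^ 2 / 2))) ≤
        Real.exp (-1) * Real.exp (-e) := by
      have e1 : (R : ℝ) ≤ ρ + 2 * ℓ := by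
        rw [hR]
        exact Nat.floor_le (by positivity)
      have e2 : 2 * (R : ℝ) + 1 ≤ Real.exp (2 * e) := by
        have := hN.n3
        rw [← he] at this
        rw [hρ, hℓ, ← he] at e1
        linarith
      have e3 : (2 * (R : ℝ) + 1) ^ d ≤ Real.exp (2 * d * e) := by
        calc (2 * (R : ℝ) + 1) ^ d ≤ (Real.exp (2 * e)) ^ d := pow_le_pow_left₀ (by positivity) e2 d
          _ = _ := by
            rw [← Real.exp_nat_mul]
            congr 1
            ring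
      have e4 : b ^ 2 / 2 = Real.exp (2 / 85 * z) / 2 := by
        rw [hb, ← Real.exp_nat_mul]
        congr 2
        push_cast
        ring
      have e5 : (2 : ℝ) ≤ Real.exp 1 := by
        have := Real.add_one_le_exp (1 : ℝ)
        linarith
      calc (2 * (R : ℝ) + 1) ^ d * (2 * Real.exp (-(b ^ 2 / 2))) ≤
          Real.exp (2 * d * e) * (Real.exp 1 * Real.exp (-(b ^ 2 / 2))) := by gcongr
        _ = Real.exp (2 * d * e + 1 - b ^ 2 / 2) := by
          rw [← Real.exp_add, ← Real.exp_add]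
          congr 1
          ring
        _ ≤ Real.exp (-1 + -e) := by
          apply Real.exp_le_exp.2
          have := hN.n2
          rw [← he] at this
          rw [e4]
          linarith
        _ = _ := Real.exp_add _ _
    have h5 : Real.exp (-1) ≤ 1 / 2 := by
      rw [Real.exp_neg, one_div]
      apply inv_anti₀ (by norm_num)
      have := Real.add_one_le_exp (1 : ℝ)
      linarith
    have h6 : 0 < Real.exp (-e) := Real.exp_pos _
    rw [← he]
    nlinarith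
  · intro ξ hξ
    have h1 := hSM _ hξ.1
    rw [htt] at h1
    have h2 : SM1 d (Real.exp (-z)) ρ t (192 * (C1 * (17 / 8 * y))) (fun x => b * tr b (ξ x)) := by
      intro E u f hu hf heq a ha
      refine h1 E u f hu hf (fun x => ?_) a (ha.trans hρρ)
      rw [← heq x, hT]
      simp only
      have e1 : Real.exp (-1 * y) = Real.exp (-z) * b := by
        rw [hb, hy, ← Real.exp_add]
        congr 1
        ring
      rw [e1]
      ring
    have h3 := SM1_loc (by omega) _ _ t _ ℓ ht0 htl (by rw [hy]; positivity) _ ξ h2 (by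
      intro x hx
      have h4 : x ∈ Pool.Agent.H4R2.LO.bx (0 : Zd d) R := by
        rw [hR]
        exact Pool.Agent.W788.Gen3.norm_zd x (ρ + 2 * ℓ) hx
      have h5 := hξ.2
      rw [hG2] at h5
      have h6 : |ξ x| ≤ b := Set.mem_iInter₂.1 h5 x h4
      exact (tr_eq b hb0 _ h6).symm)
    rw [hρ, ht] at h3
    rw [hy] at h3
    exact h3

end Pool.Agent.L5helper95.GF
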