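import Mathlib

/-! Gaussian tails and the truncated Gaussian law. -/

set_option autoImplicit false

open MeasureTheory ProbabilityTheory

namespace Pool.Agent.L5helper95.GF

theorem tail1 (b : ℝ) (hb : 0 ≤ b) :
    (gaussianReal 0 1).real {s : ℝ | b ≤ s} ≤ Real.exp (-(b ^ 2 / 2)) := by
  have h := measure_ge_le_exp_mul_mgf (μ := gaussianReal 0 1) (X := fun s : ℝ => s) (t := b) b hb
    (by
      have := integrable_exp_mul_gaussianReal (μ := 0) (v := 1) b
      simpa using this)
  have h2 : mgf (fun s : ℝ => s) (gaussianReal 0 1) b = Real.exp (b ^ 2 / 2) := by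
    have h3 := congrFun (mgf_id_gaussianReal (μ := 0) (v := 1)) b
    have h4 : mgf (fun s : ℝ => s) (gaussianReal 0 1) b = mgf id (gaussianReal 0 1) b := rfl
    rw [h4, h3]
    simp
  rw [h2, ← Real.exp_add] at h
  refine h.trans (le_of_eq ?_)
  congr 1
  ring

theorem tail2 (b : ℝ) (hb : 0 ≤ b) :
    (gaussianReal 0 1).real {s : ℝ | b < |s|} ≤ 2 * Real.exp (-(b ^ 2 / 2)) := by
  have h1 := tail1 b hb
  have h2 : (gaussianReal 0 1).real {s : ℝ | s ≤ -b} ≤ Real.exp (-(b ^ 2 / 2)) := by
    have e1 : (gaussianReal 0 1).real {s : ℝ | s ≤ -b} = (gaussianReal 0 1).real {s : ℝ | b ≤ s} := by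
      have e2 : (gaussianReal 0 1).map (fun s : ℝ => -s) = gaussianReal 0 1 := by
        rw [gaussianReal_map_neg, neg_zero]
      conv_rhs => rw [← e2]
      have hm : MeasurableSet {s : ℝ | b ≤ s} := measurableSet_le measurable_const measurable_id
      rw [map_measureReal_apply (f := fun s : ℝ => -s) measurable_neg hm]
      congr 1
      ext s
      simp only [Set.mem_ofPred_eq, Set.mem_preimage]
      constructor <;> intro h <;> linarith
    rw [e1]
    exact h1
  have h3 : {s : ℝ | b < |s|} ⊆ {s : ℝ | b ≤ s} ∪ {s : ℝ | s ≤ -b} := by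
    intro s hs
    simp only [Set.mem_ofPred_eq, Set.mem_union] at hs ⊢
    rcases le_total 0 s with h0 | h0
    · left
      rw [abs_of_nonneg h0] at hs
      exact hs.le
    · right
      rw [abs_of_nonpos h0] at hs
      linarith
  calc (gaussianReal 0 1).real {s : ℝ | b < |s|} ≤
      (gaussianReal 0 1).real ({s : ℝ | b ≤ s} ∪ {s : ℝ | s ≤ -b}) := measureReal_mono h3
    _ ≤ _ := measureReal_union_le _ _
    _ ≤ _ := by linarith

/-- truncation at `b`, divided by `b` -/
noncomputable def tr (b s : ℝ) : ℝ := if |s| ≤ b then s / b else 0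

theorem tr_meas (b : ℝ) : Measurable (tr b) := by
  unfold tr
  exact Measurable.ite (measurableSet_le measurable_id.abs measurable_const)
    (measurable_id.div_const b) measurable_const

theorem tr_abs (b : ℝ) (hb : 0 < b) (s : ℝ) : |tr b s| ≤ 1 := by
  unfold tr
  split_ifs with h
  · rw [abs_div, abs_of_pos hb, div_le_one hb]
    exact h
  · simp

theorem tr_neg (b s : ℝ) : tr b (-s) = -tr b s := by
  unfold tr
  rw [abs_neg]
  split_ifs
  · ring
  · ring

theorem tr_eq (b : ℝ) (hb : 0 < b) (s : ℝ) (h : |s| ≤ b) : b * tr b s = s := by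
  unfold tr
  rw [if_pos h]
  field_simp

/-- the law of the truncated variable -/
noncomputable def nu (b : ℝ) : Measure ℝ := (gaussianReal 0 1).map (tr b)

instance nu_prob (b : ℝ) : IsProbabilityMeasure (nu b) :=
  Measure.isProbabilityMeasure_map (tr_meas b).aemeasurable

theorem nu_bdd (b : ℝ) (hb : 0 < b) : ∀ᵐ s ∂(nu b), |s| ≤ 1 := by
  unfold nu
  rw [ae_map_iff (tr_meas b).aemeasurable (measurableSet_le (by fun_prop) (by fun_prop))]
  exact Filter.Eventually.of_forall fun s => tr_abs b hb s

theorem nu_mean (b : ℝ) : ∫ s, s ∂(nu b) = 0 := by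
  unfold nu
  rw [integral_map (tr_meas b).aemeasurable (by fun_prop)]
  have e2 : (gaussianReal 0 1).map (fun s : ℝ => -s) = gaussianReal 0 1 := by
    rw [gaussianReal_map_neg, neg_zero]
  have h1 : ∫ s, tr b s ∂(gaussianReal 0 1) = ∫ s, tr b (-s) ∂(gaussianReal 0 1) := by
    conv_lhs => rw [← e2]
    rw [integral_map measurable_neg.aemeasurable]
    exact (tr_meas b).aestronglyMeasurable
  have h2 : ∫ s, tr b (-s) ∂(gaussianReal 0 1) = -∫ s, tr b s ∂(gaussianReal 0 1) := by
    rw [← integral_neg]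
    exact integral_congr_ae (Filter.Eventually.of_forall fun s => tr_neg b s)
  linarith

end Pool.Agent.L5helper95.GF
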