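import Pool.Agent.W788.BK.Fin
import Pool.Agent.L5helper95.GF.Cut
import Pool.Agent.L5helper95.GF.Tail

/-! The local smoothing estimate for Gaussian disorder. -/

set_option autoImplicit false

open scoped BigOperators
open MeasureTheory ProbabilityTheory Filter

namespace Pool.Agent.L5helper95.GF

open Pool.Agent.H4R2.LO (Zd)
open Pool.Agent.W788.BK
open Pool.Agent.W788.BK.Num

variable {d : ℕ}

/-- numerical facts -/
structure NOK (d : ℕ) (z : ℝ) : Prop where
  n0 : 1 ≤ z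
  n1 : Real.exp (z / 110) + 1 ≤ Real.exp (84 / 8500 * z)
  n2 : (2 * d + 1) * Real.exp (z / 110) + 2 ≤ Real.exp (2 / 85 * z) / 2
  n3 : 2 * (Real.exp (Real.exp (z / 110)) + 2 * (2 * d * Real.exp (21 / 10 * z)) + 1) + 1 ≤
    Real.exp (2 * Real.exp (z / 110))

theorem nok (d : ℕ) : ∀ᶠ z : ℝ in atTop, NOK d z := by
  have h0 : ∀ᶠ z : ℝ in atTop, (1 : ℝ) ≤ z := eventually_ge_atTop 1
  have h1 := ev3 2 (1 / 110) (84 / 8500) (by norm_num)
  have h2 := ev3 (2 * (2 * d + 3)) (1 / 110) (2 / 85) (by norm_num)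
  have h4 := ev1 3 (1 / 110) 1 (by norm_num)
  have h5 := ev3 (8 * d + 7) (21 / 10) 3 (by norm_num)
  filter_upwards [h0, h1, h2, h4, h5] with z a0 a1 a2 a4 a5
  have e110 : 1 / 110 * z = z / 110 := by ring
  rw [e110] at a1 a2 a4
  have p1 : 1 ≤ Real.exp (z / 110) := Real.one_le_exp (by linarith)
  have p2 : 1 ≤ Real.exp (21 / 10 * z) := Real.one_le_exp (by linarith)
  have hd : (0 : ℝ) ≤ d := Nat.cast_nonneg d
  refine ⟨a0, by linarith, ?_, ?_⟩
  · have : (2 * d + 1) * Real.exp (z / 110) + 2 ≤ (2 * d + 3) * Real.exp (z / 110) := by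
      linarith
    linarith
  · rw [pow_one] at a4
    obtain ⟨X, hX⟩ : ∃ X, X = Real.exp (Real.exp (z / 110)) := ⟨_, rfl⟩
    have e1 : Real.exp (2 * Real.exp (z / 110)) = X * X := by
      rw [hX, ← Real.exp_add]
      congr 1
      ring
    have e2 : Real.exp (3 * z) ≤ X := by
      rw [hX]
      exact Real.exp_le_exp.2 a4
    have e3 : (8 * d + 7) * Real.exp (21 / 10 * z) ≤ X := a5.trans e2
    have e4 : (8 * d) * Real.exp (21 / 10 * z) + 7 ≤ X := by
      have : (8 * (d : ℝ) + 7) * Real.exp (21 / 10 * z) =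
        (8 * d) * Real.exp (21 / 10 * z) + 7 * Real.exp (21 / 10 * z) := by ring
      linarith
    have hXe : 7 ≤ X := by
      have : 0 ≤ (8 * (d : ℝ)) * Real.exp (21 / 10 * z) := by positivity
      linarith
    rw [e1, ← hX]
    have e5 : 2 * (X + 2 * (2 * d * Real.exp (21 / 10 * z)) + 1) + 1 ≤ 2 * X + X := by
      linarith
    have e6 : 3 * X ≤ X * X := by nlinarith
    linarith

end Pool.Agent.L5helper95.GF
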